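import Mathlib

set_option autoImplicit false

open MeasureTheory ProbabilityTheory
open scoped ENNReal NNReal

namespace Pool.Agent.Results.MP_04c77c_pr.NotConvex

/-! The closure of the entropy power region `Γ(n)` is not convex for any `n ≥ 3`.
The proof: every point of `Γ(n)` satisfies the closed condition
`v {a,b,c} * v {c} ≤ v {a,c} * v {b,c}` (submodularity of the entropy of sums, proved below),
while the midpoint of two points given by planar Gaussian vectors violates it. -/

/-- Differential entropy `- ∫ f log f` of a law `μ` on `ℝ^d`, with `f` its Lebesgue density. -/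
noncomputable def diffEntropy {d : ℕ} (μ : Measure (Fin d → ℝ)) : ℝ :=
  ∫ x, Real.negMulLog (μ.rnDeriv volume x).toReal

/-- The law `μ` on `ℝ^d` has a Lebesgue density and a finite differential entropy. -/
def HasFiniteEntropy {d : ℕ} (μ : Measure (Fin d → ℝ)) : Prop :=
  μ ≪ volume ∧ Integrable (fun x => Real.negMulLog (μ.rnDeriv volume x).toReal) volume

/-- Entropy power `exp ((2 / d) h)`. -/
noncomputable def entropyPower {d : ℕ} (μ : Measure (Fin d → ℝ)) : ℝ :=
  Real.exp ((2 / (d : ℝ)) * diffEntropy μ)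

section General

variable {d : ℕ}

lemma conv_withDensity (μ : Measure (Fin d → ℝ)) [IsProbabilityMeasure μ]
    (g : (Fin d → ℝ) → ℝ≥0∞) (hg : Measurable g) :
    μ.conv ((volume : Measure (Fin d → ℝ)).withDensity g)
      = volume.withDensity (fun s => ∫⁻ x, g (s - x) ∂μ) := by
  have hm : Measurable (fun s : Fin d → ℝ => ∫⁻ x, g (s - x) ∂μ) := by
    have : Measurable (fun p : (Fin d → ℝ) × (Fin d → ℝ) => g (p.1 - p.2)) :=
      hg.comp (measurable_fst.sub measurable_snd)
    exact this.lintegral_prod_right'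
  refine Measure.ext_of_lintegral _ (fun φ hφ => ?_)
  rw [Measure.lintegral_conv hφ, lintegral_withDensity_eq_lintegral_mul _ hm hφ]
  have h1 : ∀ x : Fin d → ℝ, ∫⁻ y, φ (x + y) ∂((volume : Measure (Fin d → ℝ)).withDensity g)
      = ∫⁻ s, g (s - x) * φ s := by
    intro x
    have h2 := lintegral_withDensity_eq_lintegral_mul (volume : Measure (Fin d → ℝ)) hg
      (hφ.comp (measurable_const_add x))
    rw [← lintegral_add_left_eq_self (fun s => g (s - x) * φ s) x]
    refine Eq.trans h2 (lintegral_congr (fun y => ?_))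
    simp
  simp_rw [h1]
  rw [lintegral_lintegral_swap]
  · refine lintegral_congr (fun s => ?_)
    rw [Pi.mul_apply, lintegral_mul_const]
    exact hg.comp (measurable_const.sub measurable_id)
  · refine Measurable.aemeasurable ?_
    exact (hg.comp (measurable_snd.sub measurable_fst)).mul (hφ.comp measurable_snd)

lemma diffEntropy_eq (f : (Fin d → ℝ) → ℝ≥0∞) (hf : Measurable f) (μ : Measure (Fin d → ℝ))
    [IsProbabilityMeasure μ] (hμ : μ = volume.withDensity f) :
    diffEntropy μ = - ∫ x, Real.log (f x).toReal ∂μ := by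
  have hfin : ∫⁻ x, f x ≠ ∞ := by
    have : μ Set.univ = ∫⁻ x, f x := by
      rw [hμ, withDensity_apply _ MeasurableSet.univ, Measure.restrict_univ]
    rw [← this]; exact measure_ne_top _ _
  have hlt : ∀ᵐ x ∂(volume : Measure (Fin d → ℝ)), f x < ∞ := ae_lt_top hf hfin
  have hrn : μ.rnDeriv volume =ᵐ[volume] f := by
    rw [hμ]; exact Measure.rnDeriv_withDensity _ hf
  unfold diffEntropy
  conv_rhs => rw [hμ]
  rw [integral_withDensity_eq_integral_toReal_smul hf hlt, ← integral_neg]
  refine integral_congr_ae ?_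
  filter_upwards [hrn] with x hx
  rw [hx, Real.negMulLog]
  simp

lemma integrable_log_iff (f : (Fin d → ℝ) → ℝ≥0∞) (hf : Measurable f) (μ : Measure (Fin d → ℝ))
    [IsProbabilityMeasure μ] (hμ : μ = volume.withDensity f) :
    Integrable (fun x => Real.negMulLog (μ.rnDeriv volume x).toReal) volume ↔
      Integrable (fun x => Real.log (f x).toReal) μ := by
  have hfin : ∫⁻ x, f x ≠ ∞ := by
    have : μ Set.univ = ∫⁻ x, f x := by
      rw [hμ, withDensity_apply _ MeasurableSet.univ, Measure.restrict_univ]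
    rw [← this]; exact measure_ne_top _ _
  have hlt : ∀ᵐ x ∂(volume : Measure (Fin d → ℝ)), f x < ∞ := ae_lt_top hf hfin
  have hrn : μ.rnDeriv volume =ᵐ[volume] f := by
    rw [hμ]; exact Measure.rnDeriv_withDensity _ hf
  conv_rhs => rw [hμ]
  rw [integrable_withDensity_iff_integrable_smul' hf hlt, ← integrable_neg_iff]
  refine integrable_congr ?_
  filter_upwards [hrn] with x hx
  simp only [Pi.neg_apply]
  rw [hx, Real.negMulLog]
  simp


lemma ae_pos_fin (f : (Fin d → ℝ) → ℝ≥0∞) (hf : Measurable f) (μ : Measure (Fin d → ℝ))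
    [IsProbabilityMeasure μ] (hμ : μ = volume.withDensity f) :
    ∀ᵐ x ∂μ, f x ≠ 0 ∧ f x ≠ ∞ := by
  have hfin : ∫⁻ x, f x ≠ ∞ := by
    have : μ Set.univ = ∫⁻ x, f x := by
      rw [hμ, withDensity_apply _ MeasurableSet.univ, Measure.restrict_univ]
    rw [← this]; exact measure_ne_top _ _
  have hlt : ∀ᵐ x ∂(volume : Measure (Fin d → ℝ)), f x < ∞ := ae_lt_top hf hfin
  rw [hμ, ae_withDensity_iff hf]
  filter_upwards [hlt] with x hx h0
  exact ⟨h0, hx.ne⟩

/-- Submodularity of differential entropy of sums of independent vectors, in terms of laws. -/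
lemma submodular (μ ν κ : Measure (Fin d → ℝ)) [IsProbabilityMeasure μ] [IsProbabilityMeasure ν]
    [IsProbabilityMeasure κ] (hκ : HasFiniteEntropy κ) (hμκ : HasFiniteEntropy (μ.conv κ))
    (hνκ : HasFiniteEntropy (ν.conv κ)) (hall : HasFiniteEntropy (μ.conv (ν.conv κ))) :
    diffEntropy (μ.conv (ν.conv κ)) + diffEntropy κ
      ≤ diffEntropy (μ.conv κ) + diffEntropy (ν.conv κ) := by
  set g : (Fin d → ℝ) → ℝ≥0∞ := κ.rnDeriv volume with hg_def
  have hg : Measurable g := Measure.measurable_rnDeriv _ _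
  have hκg : κ = volume.withDensity g := (Measure.withDensity_rnDeriv_eq _ _ hκ.1).symm
  set b : (Fin d → ℝ) → ℝ≥0∞ := fun s => ∫⁻ x, g (s - x) ∂μ with hb_def
  set c : (Fin d → ℝ) → ℝ≥0∞ := fun s => ∫⁻ y, g (s - y) ∂ν with hc_def
  set e : (Fin d → ℝ) → ℝ≥0∞ := fun s => ∫⁻ x, c (s - x) ∂μ with he_def
  have hb : Measurable b := by
    have : Measurable (fun p : (Fin d → ℝ) × (Fin d → ℝ) => g (p.1 - p.2)) :=
      hg.comp (measurable_fst.sub measurable_snd)
    exact this.lintegral_prod_right'
  have hc : Measurable c := by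
    have : Measurable (fun p : (Fin d → ℝ) × (Fin d → ℝ) => g (p.1 - p.2)) :=
      hg.comp (measurable_fst.sub measurable_snd)
    exact this.lintegral_prod_right'
  have he : Measurable e := by
    have : Measurable (fun p : (Fin d → ℝ) × (Fin d → ℝ) => c (p.1 - p.2)) :=
      hc.comp (measurable_fst.sub measurable_snd)
    exact this.lintegral_prod_right'
  have hμκ' : μ.conv κ = volume.withDensity b := by rw [hκg, conv_withDensity μ g hg]
  have hνκ' : ν.conv κ = volume.withDensity c := by rw [hκg, conv_withDensity ν g hg]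
  have hall' : μ.conv (ν.conv κ) = volume.withDensity e := by
    rw [hνκ', conv_withDensity μ c hc]
  have he2 : ∀ s, ∫⁻ y, b (s - y) ∂ν = e s := by
    intro s
    simp only [hb_def, hc_def, he_def]
    rw [lintegral_lintegral_swap]
    · refine lintegral_congr (fun x => lintegral_congr (fun y => ?_))
      rw [sub_right_comm]
    · refine Measurable.aemeasurable ?_
      exact hg.comp ((measurable_const.sub measurable_fst).sub measurable_snd)
  -- the joint law
  set π : Measure ((Fin d → ℝ) × (Fin d → ℝ) × (Fin d → ℝ)) := μ.prod (ν.prod κ) with hπ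
  have hint : ∀ ψ : (Fin d → ℝ) × (Fin d → ℝ) × (Fin d → ℝ) → ℝ≥0∞, Measurable ψ →
      ∫⁻ p, ψ p ∂π = ∫⁻ x, ∫⁻ y, ∫⁻ z, ψ (x, y, z) ∂κ ∂ν ∂μ := by
    intro ψ hψ
    rw [hπ, lintegral_prod _ hψ.aemeasurable]
    refine lintegral_congr (fun x => ?_)
    have hψ' : Measurable (fun p : (Fin d → ℝ) × (Fin d → ℝ) => ψ (x, p)) :=
      hψ.comp measurable_prodMk_left
    rw [lintegral_prod _ hψ'.aemeasurable]
  have mZ : Measurable (fun p : (Fin d → ℝ) × (Fin d → ℝ) × (Fin d → ℝ) => p.2.2) :=
    measurable_snd.comp measurable_snd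
  have mY : Measurable (fun p : (Fin d → ℝ) × (Fin d → ℝ) × (Fin d → ℝ) => p.2.1) :=
    measurable_fst.comp measurable_snd
  have mX : Measurable (fun p : (Fin d → ℝ) × (Fin d → ℝ) × (Fin d → ℝ) => p.1) :=
    measurable_fst
  have mXZ : Measurable (fun p : (Fin d → ℝ) × (Fin d → ℝ) × (Fin d → ℝ) => p.1 + p.2.2) :=
    mX.add mZ
  have mYZ : Measurable (fun p : (Fin d → ℝ) × (Fin d → ℝ) × (Fin d → ℝ) => p.2.1 + p.2.2) :=
    mY.add mZ
  have mXYZ : Measurable
      (fun p : (Fin d → ℝ) × (Fin d → ℝ) × (Fin d → ℝ) => p.1 + (p.2.1 + p.2.2)) :=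
    mX.add (mY.add mZ)
  have hZ : MeasurePreserving
      (fun p : (Fin d → ℝ) × (Fin d → ℝ) × (Fin d → ℝ) => p.2.2) π κ := by
    refine ⟨mZ, Measure.ext_of_lintegral _ (fun φ hφ => ?_)⟩
    rw [lintegral_map hφ mZ, hint (fun p => φ p.2.2) (hφ.comp mZ)]
    simp
  have hXZ : MeasurePreserving
      (fun p : (Fin d → ℝ) × (Fin d → ℝ) × (Fin d → ℝ) => p.1 + p.2.2) π (μ.conv κ) := by
    refine ⟨mXZ, Measure.ext_of_lintegral _ (fun φ hφ => ?_)⟩
    rw [lintegral_map hφ mXZ, hint (fun p => φ (p.1 + p.2.2)) (hφ.comp mXZ),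
      Measure.lintegral_conv hφ]
    simp
  have hYZ : MeasurePreserving
      (fun p : (Fin d → ℝ) × (Fin d → ℝ) × (Fin d → ℝ) => p.2.1 + p.2.2) π (ν.conv κ) := by
    refine ⟨mYZ, Measure.ext_of_lintegral _ (fun φ hφ => ?_)⟩
    rw [lintegral_map hφ mYZ, hint (fun p => φ (p.2.1 + p.2.2)) (hφ.comp mYZ),
      Measure.lintegral_conv hφ]
    simp
  have hXYZ : MeasurePreserving
      (fun p : (Fin d → ℝ) × (Fin d → ℝ) × (Fin d → ℝ) => p.1 + (p.2.1 + p.2.2)) π
      (μ.conv (ν.conv κ)) := by
    refine ⟨mXYZ, Measure.ext_of_lintegral _ (fun φ hφ => ?_)⟩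
    rw [lintegral_map hφ mXYZ, hint (fun p => φ (p.1 + (p.2.1 + p.2.2))) (hφ.comp mXYZ),
      Measure.lintegral_conv hφ]
    refine lintegral_congr (fun x => ?_)
    have hx : Measurable (fun y => φ (x + y)) := hφ.comp (measurable_const_add x)
    rw [Measure.lintegral_conv hx]
  -- almost sure positivity and finiteness
  have aeg := ae_pos_fin g hg κ hκg
  have aeb := ae_pos_fin b hb _ hμκ'
  have aec := ae_pos_fin c hc _ hνκ'
  have aee := ae_pos_fin e he _ hall'
  have aeg' := hZ.quasiMeasurePreserving.ae aeg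
  have aeb' := hXZ.quasiMeasurePreserving.ae aeb
  have aec' := hYZ.quasiMeasurePreserving.ae aec
  have aee' := hXYZ.quasiMeasurePreserving.ae aee
  -- the ratio
  set R : (Fin d → ℝ) × (Fin d → ℝ) × (Fin d → ℝ) → ℝ≥0∞ := fun p =>
    b (p.1 + p.2.2) * c (p.2.1 + p.2.2) / e (p.1 + (p.2.1 + p.2.2)) / g p.2.2 with hR
  have hRm : Measurable R :=
    (((hb.comp (mX.add mZ)).mul (hc.comp (mY.add mZ))).div (he.comp (mX.add (mY.add mZ)))).div
      (hg.comp mZ)
  have hR1 : ∫⁻ p, R p ∂π ≤ 1 := by
    rw [hint R hRm]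
    have step1 : ∀ x y : Fin d → ℝ, ∫⁻ z, R (x, y, z) ∂κ
        ≤ ∫⁻ s, b (s - y) * c (s - x) / e s := by
      intro x y
      have hRz : Measurable (fun z => R (x, y, z)) :=
        hRm.comp (measurable_prodMk_left.comp measurable_prodMk_left)
      rw [hκg, lintegral_withDensity_eq_lintegral_mul _ hg hRz]
      rw [← lintegral_add_left_eq_self (fun s => b (s - y) * c (s - x) / e s) (x + y)]
      refine lintegral_mono (fun z => ?_)
      simp only [Pi.mul_apply, hR]
      have e1 : x + y + z - y = x + z := by abel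
      have e2 : x + y + z - x = y + z := by abel
      have e3 : x + y + z = x + (y + z) := by abel
      rw [e1, e2, e3]
      rw [div_eq_mul_inv (b (x + z) * c (y + z) / e (x + (y + z))) (g z), mul_left_comm]
      calc b (x + z) * c (y + z) / e (x + (y + z)) * (g z * (g z)⁻¹)
          ≤ b (x + z) * c (y + z) / e (x + (y + z)) * 1 :=
            mul_le_mul' le_rfl (ENNReal.mul_inv_le_one _)
        _ = _ := mul_one _
    calc ∫⁻ x, ∫⁻ y, ∫⁻ z, R (x, y, z) ∂κ ∂ν ∂μ
        ≤ ∫⁻ x, ∫⁻ y, ∫⁻ s, b (s - y) * c (s - x) / e s ∂volume ∂ν ∂μ :=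
          lintegral_mono (fun x => lintegral_mono (fun y => step1 x y))
      _ = ∫⁻ x, ∫⁻ s, (∫⁻ y, b (s - y) ∂ν) * (c (s - x) / e s) ∂volume ∂μ := by
          refine lintegral_congr (fun x => ?_)
          rw [lintegral_lintegral_swap]
          · refine lintegral_congr (fun s => ?_)
            have hbs : Measurable (fun y => b (s - y)) :=
              hb.comp (measurable_const.sub measurable_id)
            rw [← lintegral_mul_const _ hbs]
            refine lintegral_congr (fun y => ?_)
            rw [mul_div_assoc]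
          · refine Measurable.aemeasurable ?_
            exact ((hb.comp (measurable_snd.sub measurable_fst)).mul
              (hc.comp (measurable_snd.sub measurable_const))).div (he.comp measurable_snd)
      _ = ∫⁻ s, (∫⁻ x, c (s - x) ∂μ) * (e s / e s) := by
          simp_rw [he2]
          rw [lintegral_lintegral_swap]
          · refine lintegral_congr (fun s => ?_)
            have hcs : Measurable (fun x => c (s - x)) :=
              hc.comp (measurable_const.sub measurable_id)
            rw [← lintegral_mul_const _ hcs]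
            refine lintegral_congr (fun x => ?_)
            rw [mul_comm, mul_comm (c (s - x)) (e s / e s), ENNReal.div_eq_inv_mul,
              ENNReal.div_eq_inv_mul]
            ring
          · refine Measurable.aemeasurable ?_
            exact (he.comp measurable_snd).mul
              ((hc.comp (measurable_snd.sub measurable_fst)).div (he.comp measurable_snd))
      _ ≤ ∫⁻ s, e s := by
          refine lintegral_mono (fun s => ?_)
          calc (∫⁻ x, c (s - x) ∂μ) * (e s / e s) ≤ e s * 1 :=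
                mul_le_mul' le_rfl ENNReal.div_self_le_one
            _ = e s := mul_one _
      _ = 1 := by
          have : (μ.conv (ν.conv κ)) Set.univ = ∫⁻ s, e s := by
            rw [hall', withDensity_apply _ MeasurableSet.univ, Measure.restrict_univ]
          rw [← this]; exact measure_univ
  have hRint : Integrable (fun p => (R p).toReal) π :=
    integrable_toReal_of_lintegral_ne_top hRm.aemeasurable (ne_top_of_le_ne_top ENNReal.one_ne_top hR1)
  have hRle : ∫ p, (R p).toReal ∂π ≤ 1 := by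
    rw [integral_toReal hRm.aemeasurable (ae_lt_top hRm (ne_top_of_le_ne_top ENNReal.one_ne_top hR1))]
    exact ENNReal.toReal_le_of_le_ofReal zero_le_one (by simpa using hR1)
  have ig := (integrable_log_iff g hg κ hκg).1 hκ.2
  have ib := (integrable_log_iff b hb _ hμκ').1 hμκ.2
  have ic := (integrable_log_iff c hc _ hνκ').1 hνκ.2
  have ie := (integrable_log_iff e he _ hall').1 hall.2
  have lg : Measurable (fun x => Real.log (g x).toReal) := hg.ennreal_toReal.log
  have lb : Measurable (fun x => Real.log (b x).toReal) := hb.ennreal_toReal.log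
  have lc : Measurable (fun x => Real.log (c x).toReal) := hc.ennreal_toReal.log
  have le' : Measurable (fun x => Real.log (e x).toReal) := he.ennreal_toReal.log
  have ig' := (hZ.integrable_comp lg.aestronglyMeasurable).2 ig
  have ib' := (hXZ.integrable_comp lb.aestronglyMeasurable).2 ib
  have ic' := (hYZ.integrable_comp lc.aestronglyMeasurable).2 ic
  have ie' := (hXYZ.integrable_comp le'.aestronglyMeasurable).2 ie
  have vg : ∫ p, Real.log (g p.2.2).toReal ∂π = ∫ x, Real.log (g x).toReal ∂κ := by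
    rw [← hZ.map_eq, integral_map mZ.aemeasurable lg.aestronglyMeasurable]
  have vb : ∫ p, Real.log (b (p.1 + p.2.2)).toReal ∂π
      = ∫ x, Real.log (b x).toReal ∂(μ.conv κ) := by
    rw [← hXZ.map_eq, integral_map mXZ.aemeasurable lb.aestronglyMeasurable]
  have vc : ∫ p, Real.log (c (p.2.1 + p.2.2)).toReal ∂π
      = ∫ x, Real.log (c x).toReal ∂(ν.conv κ) := by
    rw [← hYZ.map_eq, integral_map mYZ.aemeasurable lc.aestronglyMeasurable]
  have ve : ∫ p, Real.log (e (p.1 + (p.2.1 + p.2.2))).toReal ∂π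
      = ∫ x, Real.log (e x).toReal ∂(μ.conv (ν.conv κ)) := by
    rw [← hXYZ.map_eq, integral_map mXYZ.aemeasurable le'.aestronglyMeasurable]
  have key : ∫ p, (Real.log (b (p.1 + p.2.2)).toReal + Real.log (c (p.2.1 + p.2.2)).toReal
      - Real.log (e (p.1 + (p.2.1 + p.2.2))).toReal - Real.log (g p.2.2).toReal) ∂π
      ≤ ∫ p, ((R p).toReal - 1) ∂π := by
    refine integral_mono_ae (((ib'.add ic').sub ie').sub ig') (hRint.sub (integrable_const 1)) ?_
    filter_upwards [aeg', aeb', aec', aee'] with p h1 h2 h3 h4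
    have hb0 : 0 < (b (p.1 + p.2.2)).toReal := ENNReal.toReal_pos h2.1 h2.2
    have hc0 : 0 < (c (p.2.1 + p.2.2)).toReal := ENNReal.toReal_pos h3.1 h3.2
    have he0 : 0 < (e (p.1 + (p.2.1 + p.2.2))).toReal := ENNReal.toReal_pos h4.1 h4.2
    have hg0 : 0 < (g p.2.2).toReal := ENNReal.toReal_pos h1.1 h1.2
    have hRr : (R p).toReal = (b (p.1 + p.2.2)).toReal * (c (p.2.1 + p.2.2)).toReal
        / (e (p.1 + (p.2.1 + p.2.2))).toReal / (g p.2.2).toReal := by
      simp only [hR, ENNReal.toReal_div, ENNReal.toReal_mul]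
    have hpos : 0 < (R p).toReal := by rw [hRr]; positivity
    have := Real.log_le_sub_one_of_pos hpos
    rw [hRr, Real.log_div (by positivity) hg0.ne', Real.log_div (by positivity) he0.ne',
      Real.log_mul hb0.ne' hc0.ne'] at this
    rw [hRr]
    exact this
  have e1 : ∫ p, ((R p).toReal - 1) ∂π ≤ 0 := by
    rw [integral_sub hRint (integrable_const 1)]
    simp only [integral_const, smul_eq_mul, mul_one]
    have : π.real Set.univ = 1 := by simp [hπ]
    rw [this]; linarith
  have e2 : ∫ p, (Real.log (b (p.1 + p.2.2)).toReal + Real.log (c (p.2.1 + p.2.2)).toReal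
      - Real.log (e (p.1 + (p.2.1 + p.2.2))).toReal - Real.log (g p.2.2).toReal) ∂π
      = ∫ x, Real.log (b x).toReal ∂(μ.conv κ) + ∫ x, Real.log (c x).toReal ∂(ν.conv κ)
        - ∫ x, Real.log (e x).toReal ∂(μ.conv (ν.conv κ)) - ∫ x, Real.log (g x).toReal ∂κ := by
    rw [← vg, ← vb, ← vc, ← ve]
    have i1 := integral_sub ((ib'.add ic').sub ie') ig'
    have i2 := integral_sub (ib'.add ic') ie'
    have i3 := integral_add ib' ic'
    simp only [Function.comp, Pi.add_apply, Pi.sub_apply] at i1 i2 i3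
    rw [i1, i2, i3]
  rw [diffEntropy_eq g hg κ hκg, diffEntropy_eq b hb _ hμκ', diffEntropy_eq c hc _ hνκ',
    diffEntropy_eq e he _ hall']
  linarith

end General

section Gaussian

/-- Product Gaussian law on the plane with variances `t 0`, `t 1`. -/
noncomputable def gaussPlane (t : Fin 2 → ℝ≥0) : Measure (Fin 2 → ℝ) :=
  Measure.pi (fun j => gaussianReal 0 (t j))

instance (t : Fin 2 → ℝ≥0) : IsProbabilityMeasure (gaussPlane t) := by
  unfold gaussPlane; infer_instance

lemma gaussPlane_conv (s t : Fin 2 → ℝ≥0) :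
    (gaussPlane s).conv (gaussPlane t) = gaussPlane (s + t) := by
  unfold gaussPlane Measure.conv
  rw [← (measurePreserving_arrowProdEquivProdArrow ℝ ℝ (Fin 2)
    (fun j => gaussianReal 0 (s j)) (fun j => gaussianReal 0 (t j))).map_eq]
  have hadd : Measurable (fun x : (Fin 2 → ℝ) × (Fin 2 → ℝ) => x.1 + x.2) :=
    measurable_fst.add measurable_snd
  rw [Measure.map_map hadd (MeasurableEquiv.arrowProdEquivProdArrow ℝ ℝ (Fin 2)).measurable]
  have : ((fun x : (Fin 2 → ℝ) × (Fin 2 → ℝ) => x.1 + x.2) ∘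
      (MeasurableEquiv.arrowProdEquivProdArrow ℝ ℝ (Fin 2)))
      = fun x j => (fun p : ℝ × ℝ => p.1 + p.2) (x j) := by
    ext x j; rfl
  rw [this]
  have : ∀ j : Fin 2, SigmaFinite (((gaussianReal 0 (s j)).prod (gaussianReal 0 (t j))).map
      (fun p : ℝ × ℝ => p.1 + p.2)) := by
    intro j
    have : IsProbabilityMeasure (((gaussianReal 0 (s j)).prod (gaussianReal 0 (t j))).map
      (fun p : ℝ × ℝ => p.1 + p.2)) :=
      Measure.isProbabilityMeasure_map (measurable_fst.add measurable_snd).aemeasurable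
    infer_instance
  rw [Measure.pi_map_pi (f := fun _ : Fin 2 => fun p : ℝ × ℝ => p.1 + p.2)
    (fun j => (measurable_fst.add measurable_snd).aemeasurable)]
  congr 1
  funext j
  have := gaussianReal_conv_gaussianReal (m₁ := 0) (m₂ := 0) (v₁ := s j) (v₂ := t j)
  unfold Measure.conv at this
  rw [this]
  simp

/-- density of the planar Gaussian -/
noncomputable def planeDensity (t : Fin 2 → ℝ≥0) (x : Fin 2 → ℝ) : ℝ≥0∞ :=
  gaussianPDF 0 (t 0) (x 0) * gaussianPDF 0 (t 1) (x 1)

lemma measurable_planeDensity (t : Fin 2 → ℝ≥0) : Measurable (planeDensity t) :=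
  ((measurable_gaussianPDF _ _).comp (measurable_pi_apply 0)).mul
    ((measurable_gaussianPDF _ _).comp (measurable_pi_apply 1))

lemma gaussPlane_eq (t : Fin 2 → ℝ≥0) (ht : ∀ j, t j ≠ 0) :
    gaussPlane t = volume.withDensity (planeDensity t) := by
  refine Measure.pi_eq (fun s hs => ?_)
  rw [withDensity_apply _ (MeasurableSet.univ_pi hs), ← lintegral_indicator (MeasurableSet.univ_pi hs)]
  have h1 : ∀ x : Fin 2 → ℝ, (Set.univ.pi s).indicator (planeDensity t) x
      = (fun z : ℝ × ℝ => (s 0).indicator (gaussianPDF 0 (t 0)) z.1 *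
          (s 1).indicator (gaussianPDF 0 (t 1)) z.2) (MeasurableEquiv.finTwoArrow x) := by
    intro x
    simp only [MeasurableEquiv.finTwoArrow, MeasurableEquiv.piFinTwo_apply]
    by_cases h0 : x 0 ∈ s 0
    · by_cases h1 : x 1 ∈ s 1
      · have : x ∈ Set.univ.pi s := by
          intro j _; fin_cases j <;> assumption
        simp [this, h0, h1, planeDensity]
      · have : x ∉ Set.univ.pi s := fun h => h1 (h 1 (Set.mem_univ _))
        simp [this, h1]
    · have : x ∉ Set.univ.pi s := fun h => h0 (h 0 (Set.mem_univ _))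
      simp [this, h0]
  simp_rw [h1]
  have m0 : Measurable ((s 0).indicator (gaussianPDF 0 (t 0))) :=
    (measurable_gaussianPDF _ _).indicator (hs 0)
  have m1 : Measurable ((s 1).indicator (gaussianPDF 0 (t 1))) :=
    (measurable_gaussianPDF _ _).indicator (hs 1)
  have m01 : Measurable (fun z : ℝ × ℝ => (s 0).indicator (gaussianPDF 0 (t 0)) z.1 *
      (s 1).indicator (gaussianPDF 0 (t 1)) z.2) :=
    (m0.comp measurable_fst).mul (m1.comp measurable_snd)
  rw [(volume_preserving_finTwoArrow ℝ).lintegral_comp m01]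
  rw [Measure.volume_eq_prod, lintegral_prod_mul m0.aemeasurable m1.aemeasurable,
    lintegral_indicator (hs 0), lintegral_indicator (hs 1), Fin.prod_univ_two,
    gaussianReal_apply _ (ht 0), gaussianReal_apply _ (ht 1)]

lemma integral_log_gaussianPDF (v : ℝ≥0) (hv : v ≠ 0) :
    Integrable (fun x => Real.log (gaussianPDF 0 v x).toReal) (gaussianReal 0 v) ∧
    ∫ x, Real.log (gaussianPDF 0 v x).toReal ∂(gaussianReal 0 v)
      = - (Real.log (2 * Real.pi * v) / 2 + 1 / 2) := by
  have hv' : (0 : ℝ) < v := by positivity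
  have h1 : ∀ x, Real.log (gaussianPDF 0 v x).toReal
      = - (Real.log (2 * Real.pi * v) / 2) - (2 * (v : ℝ))⁻¹ * x ^ 2 := by
    intro x
    rw [toReal_gaussianPDF, gaussianPDFReal, Real.log_mul (by positivity) (by positivity),
      Real.log_inv, Real.log_exp, Real.log_sqrt (by positivity)]
    field_simp
    ring
  have hsq : Integrable (fun x : ℝ => x ^ 2) (gaussianReal 0 v) := by
    have := (memLp_id_gaussianReal (μ := 0) (v := v) 2).integrable_sq
    simpa using this
  have hvar : ∫ x, x ^ 2 ∂(gaussianReal 0 v) = v := by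
    have h := variance_fun_id_gaussianReal (μ := 0) (v := v)
    rw [variance_of_integral_eq_zero measurable_id'.aemeasurable (by simp)] at h
    simpa using h
  simp_rw [h1]
  refine ⟨(integrable_const _).sub (hsq.const_mul _), ?_⟩
  rw [integral_sub (integrable_const _) (hsq.const_mul _), integral_const_mul, hvar]
  simp
  field_simp
  ring

lemma gaussPlane_entropy (t : Fin 2 → ℝ≥0) (ht : ∀ j, t j ≠ 0) :
    HasFiniteEntropy (gaussPlane t) ∧
      entropyPower (gaussPlane t)
        = 2 * Real.pi * Real.exp 1 * Real.sqrt ((t 0 : ℝ) * (t 1 : ℝ)) := by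
  have hev : ∀ j : Fin 2, MeasurePreserving (Function.eval j) (gaussPlane t)
      (gaussianReal 0 (t j)) := fun j => measurePreserving_eval (fun j => gaussianReal 0 (t j)) j
  have hlm : ∀ v : ℝ≥0, Measurable (fun x => Real.log (gaussianPDF 0 v x).toReal) :=
    fun v => (measurable_gaussianPDF 0 v).ennreal_toReal.log
  have hI : ∀ j : Fin 2, Integrable (fun x : Fin 2 → ℝ =>
      Real.log (gaussianPDF 0 (t j) (x j)).toReal) (gaussPlane t) := fun j =>
    ((hev j).integrable_comp (hlm (t j)).aestronglyMeasurable).2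
      (integral_log_gaussianPDF (t j) (ht j)).1
  have hV : ∀ j : Fin 2, ∫ x : Fin 2 → ℝ, Real.log (gaussianPDF 0 (t j) (x j)).toReal
      ∂(gaussPlane t) = - (Real.log (2 * Real.pi * t j) / 2 + 1 / 2) := by
    intro j
    rw [← (integral_log_gaussianPDF (t j) (ht j)).2, ← (hev j).map_eq,
      integral_map (measurable_pi_apply j).aemeasurable (hlm (t j)).aestronglyMeasurable]
  have hlog : ∀ x : Fin 2 → ℝ, Real.log (planeDensity t x).toReal
      = Real.log (gaussianPDF 0 (t 0) (x 0)).toReal + Real.log (gaussianPDF 0 (t 1) (x 1)).toReal := by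
    intro x
    rw [planeDensity, ENNReal.toReal_mul, Real.log_mul]
    · rw [toReal_gaussianPDF]; exact (gaussianPDFReal_pos _ _ _ (ht 0)).ne'
    · rw [toReal_gaussianPDF]; exact (gaussianPDFReal_pos _ _ _ (ht 1)).ne'
  have heq := gaussPlane_eq t ht
  refine ⟨⟨?_, ?_⟩, ?_⟩
  · rw [heq]; exact withDensity_absolutelyContinuous _ _
  · rw [integrable_log_iff (planeDensity t) (measurable_planeDensity t) _ heq]
    simp_rw [hlog]
    exact (hI 0).add (hI 1)
  · unfold entropyPower
    rw [diffEntropy_eq (planeDensity t) (measurable_planeDensity t) _ heq]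
    simp_rw [hlog]
    rw [integral_add (hI 0) (hI 1), hV 0, hV 1]
    have h0 : (0 : ℝ) < t 0 := by have := ht 0; positivity
    have h1 : (0 : ℝ) < t 1 := by have := ht 1; positivity
    have e1 : (2 / ((2 : ℕ) : ℝ)) * -(-(Real.log (2 * Real.pi * (t 0)) / 2 + 1 / 2) +
        -(Real.log (2 * Real.pi * (t 1)) / 2 + 1 / 2))
        = 1 + (Real.log (2 * Real.pi * (t 0)) + Real.log (2 * Real.pi * (t 1))) / 2 := by
      push_cast; ring
    rw [e1, Real.exp_add, ← Real.log_mul (by positivity) (by positivity),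
      ← Real.log_sqrt (by positivity), Real.exp_log (by positivity)]
    have e2 : 2 * Real.pi * (t 0 : ℝ) * (2 * Real.pi * (t 1 : ℝ))
        = (2 * Real.pi) ^ 2 * ((t 0 : ℝ) * (t 1 : ℝ)) := by ring
    rw [e2, Real.sqrt_mul (by positivity), Real.sqrt_sq (by positivity)]
    ring

end Gaussian

/-- The set `Γ_d(n)`: all vectors of entropy powers of the nonempty subset sums of `n` independent
random vectors in `ℝ^d` with densities and finite differential entropies. -/
def GammaDim (d n : ℕ) : Set ({S : Finset (Fin n) // S.Nonempty} → ℝ) :=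
  {v | ∃ (Ω : Type) (_ : MeasurableSpace Ω) (P : Measure Ω) (_ : IsProbabilityMeasure P)
      (X : Fin n → Ω → (Fin d → ℝ)),
      (∀ i, Measurable (X i)) ∧ iIndepFun X P ∧
      (∀ S : {S : Finset (Fin n) // S.Nonempty}, HasFiniteEntropy (P.map (∑ i ∈ S.1, X i))) ∧
      ∀ S : {S : Finset (Fin n) // S.Nonempty}, v S = entropyPower (P.map (∑ i ∈ S.1, X i))}

/-- The entropy power region `Γ(n)`, the union of `Γ_d(n)` over all `d ≥ 1`. -/
def Gamma (n : ℕ) : Set ({S : Finset (Fin n) // S.Nonempty} → ℝ) :=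
  {v | ∃ d : ℕ, 1 ≤ d ∧ v ∈ GammaDim d n}

section Main

variable {n : ℕ}

/-- Submodularity for points of `Γ(n)`. -/
lemma gamma_submodular (i j k : Fin n) (hij : i ≠ j) (hik : i ≠ k) (hjk : j ≠ k)
    (v : {S : Finset (Fin n) // S.Nonempty} → ℝ) (hv : v ∈ Gamma n) :
    v ⟨{i, j, k}, by simp⟩ * v ⟨{k}, by simp⟩ ≤ v ⟨{i, k}, by simp⟩ * v ⟨{j, k}, by simp⟩ := by
  obtain ⟨d, hd, Ω, mΩ, P, hP, X, hX, hind, hfin, hval⟩ := hv
  have hk : ∑ l ∈ ({k} : Finset (Fin n)), X l = X k := by simp
  have hikS : ∑ l ∈ ({i, k} : Finset (Fin n)), X l = X i + X k := by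
    rw [Finset.sum_pair hik]
  have hjkS : ∑ l ∈ ({j, k} : Finset (Fin n)), X l = X j + X k := by
    rw [Finset.sum_pair hjk]
  have hijkS : ∑ l ∈ ({i, j, k} : Finset (Fin n)), X l = X i + (X j + X k) := by
    rw [Finset.sum_insert (by simp [hij, hik]), Finset.sum_pair hjk]
  have lik : P.map (X i + X k) = (P.map (X i)).conv (P.map (X k)) :=
    (hind.indepFun hik).map_add_eq_map_conv_map (hX i) (hX k)
  have ljk : P.map (X j + X k) = (P.map (X j)).conv (P.map (X k)) :=
    (hind.indepFun hjk).map_add_eq_map_conv_map (hX j) (hX k)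
  have hi' : IndepFun (X i) (X j + X k) P := by
    have := hind.indepFun_finsetSum_of_notMem hX (s := {j, k}) (i := i) (by simp [hij, hik])
    rw [Finset.sum_pair hjk] at this
    exact this.symm
  have lijk : P.map (X i + (X j + X k))
      = (P.map (X i)).conv ((P.map (X j)).conv (P.map (X k))) := by
    rw [hi'.map_add_eq_map_conv_map (hX i) ((hX j).add (hX k)), ljk]
  have : IsProbabilityMeasure (P.map (X i)) :=
    Measure.isProbabilityMeasure_map (hX i).aemeasurable
  have : IsProbabilityMeasure (P.map (X j)) :=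
    Measure.isProbabilityMeasure_map (hX j).aemeasurable
  have : IsProbabilityMeasure (P.map (X k)) :=
    Measure.isProbabilityMeasure_map (hX k).aemeasurable
  have f1 := hfin ⟨{k}, by simp⟩
  have f2 := hfin ⟨{i, k}, by simp⟩
  have f3 := hfin ⟨{j, k}, by simp⟩
  have f4 := hfin ⟨{i, j, k}, by simp⟩
  simp only [hk, hikS, hjkS, hijkS] at f1 f2 f3 f4
  rw [lik] at f2
  rw [ljk] at f3
  rw [lijk] at f4
  have hsub := submodular (P.map (X i)) (P.map (X j)) (P.map (X k)) f1 f2 f3 f4
  rw [hval, hval, hval, hval]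
  simp only [hk, hikS, hjkS, hijkS]
  rw [lik, ljk, lijk]
  unfold entropyPower
  rw [← Real.exp_add, ← Real.exp_add, Real.exp_le_exp, ← mul_add, ← mul_add]
  exact mul_le_mul_of_nonneg_left hsub (by positivity)

/-- Points of `Γ(n)` given by planar Gaussian vectors with independent coordinates. -/
lemma gaussPoint_mem (s : Fin n → Fin 2 → ℝ≥0) (hs : ∀ i j, s i j ≠ 0) :
    (fun S : {S : Finset (Fin n) // S.Nonempty} =>
      2 * Real.pi * Real.exp 1 *
        Real.sqrt (((∑ i ∈ S.1, s i 0 : ℝ≥0) : ℝ) * ((∑ i ∈ S.1, s i 1 : ℝ≥0) : ℝ))) ∈ Gamma n := by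
  refine ⟨2, by norm_num, Fin n → (Fin 2 → ℝ), inferInstance,
    Measure.pi (fun i => gaussPlane (s i)), inferInstance, fun i ω => ω i,
    fun i => measurable_pi_apply i, ?_, ?_⟩
  · exact iIndepFun_pi (X := fun _ => id) (fun _ => aemeasurable_id)
  have hind : iIndepFun (fun i (ω : Fin n → (Fin 2 → ℝ)) => ω i)
      (Measure.pi (fun i => gaussPlane (s i))) :=
    iIndepFun_pi (X := fun _ => id) (fun _ => aemeasurable_id)
  have hlaw : ∀ S : Finset (Fin n), S.Nonempty →
      (Measure.pi (fun i => gaussPlane (s i))).map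
        (∑ i ∈ S, fun ω : Fin n → (Fin 2 → ℝ) => ω i) = gaussPlane (∑ i ∈ S, s i) := by
    intro S hS
    induction hS using Finset.Nonempty.cons_induction with
    | singleton a =>
      simp only [Finset.sum_singleton]
      exact (measurePreserving_eval (fun i => gaussPlane (s i)) a).map_eq
    | cons a S ha hS ih =>
      rw [Finset.sum_cons, Finset.sum_cons]
      have hI : IndepFun (fun ω : Fin n → (Fin 2 → ℝ) => ω a)
          (∑ i ∈ S, fun ω : Fin n → (Fin 2 → ℝ) => ω i)
          (Measure.pi (fun i => gaussPlane (s i))) :=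
        (hind.indepFun_finsetSum_of_notMem (fun i => measurable_pi_apply i) ha).symm
      have hmS : Measurable (∑ i ∈ S, fun ω : Fin n → (Fin 2 → ℝ) => ω i) := by
        have : (∑ i ∈ S, fun ω : Fin n → (Fin 2 → ℝ) => ω i) = fun ω => ∑ i ∈ S, ω i := by
          ext ω; simp
        rw [this]
        exact Finset.measurable_sum S (fun i _ => measurable_pi_apply i)
      rw [hI.map_add_eq_map_conv_map (measurable_pi_apply a) hmS, ih]
      rw [show (Measure.pi (fun i => gaussPlane (s i))).map
        (fun ω : Fin n → (Fin 2 → ℝ) => ω a) = gaussPlane (s a) from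
        (measurePreserving_eval (fun i => gaussPlane (s i)) a).map_eq]
      exact gaussPlane_conv _ _
  have hne : ∀ S : Finset (Fin n), S.Nonempty → ∀ j : Fin 2, (∑ i ∈ S, s i) j ≠ 0 := by
    intro S hS j
    rw [Finset.sum_apply]
    obtain ⟨a, ha⟩ := hS
    intro h0
    exact hs a j (Finset.sum_eq_zero_iff.1 h0 a ha)
  constructor
  · intro S
    rw [hlaw S.1 S.2]
    exact (gaussPlane_entropy _ (hne S.1 S.2)).1
  · intro S
    rw [hlaw S.1 S.2, (gaussPlane_entropy _ (hne S.1 S.2)).2, Finset.sum_apply, Finset.sum_apply]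

end Main

/-- For every `n ≥ 3` the closure of the entropy power region `Γ(n)` is not convex. -/
theorem result : ∀ n : ℕ, 3 ≤ n → ¬ Convex ℝ (closure (Gamma n)) := by
  intro n hn hconv
  set a : Fin n := ⟨0, by omega⟩ with ha
  set b : Fin n := ⟨1, by omega⟩ with hb
  set c : Fin n := ⟨2, by omega⟩ with hc
  have hab : a ≠ b := by simp [ha, hb]
  have hac : a ≠ c := by simp [ha, hc]
  have hbc : b ≠ c := by simp [hb, hc]
  -- the two Gaussian families
  let s : Fin n → Fin 2 → ℝ≥0 := fun i j =>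
    if i = a then (if j = 0 then 15 else 9 / 16)
    else if i = b then (if j = 0 then 9 / 16 else 15) else 1
  let t : Fin n → Fin 2 → ℝ≥0 := fun i j => if i = c then 4 else 1
  have hs : ∀ i j, s i j ≠ 0 := by
    intro i j
    simp only [s]
    split_ifs <;> norm_num
  have ht : ∀ i j, t i j ≠ 0 := by
    intro i j
    simp only [t]
    split_ifs <;> norm_num
  have hv := gaussPoint_mem s hs
  have hw := gaussPoint_mem t ht
  set v := (fun S : {S : Finset (Fin n) // S.Nonempty} =>
      2 * Real.pi * Real.exp 1 *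
        Real.sqrt (((∑ i ∈ S.1, s i 0 : ℝ≥0) : ℝ) * ((∑ i ∈ S.1, s i 1 : ℝ≥0) : ℝ))) with hvdef
  set w := (fun S : {S : Finset (Fin n) // S.Nonempty} =>
      2 * Real.pi * Real.exp 1 *
        Real.sqrt (((∑ i ∈ S.1, t i 0 : ℝ≥0) : ℝ) * ((∑ i ∈ S.1, t i 1 : ℝ≥0) : ℝ))) with hwdef
  -- the closed set given by submodularity
  let K : Set ({S : Finset (Fin n) // S.Nonempty} → ℝ) :=
    {v | v ⟨{a, b, c}, by simp⟩ * v ⟨{c}, by simp⟩ ≤ v ⟨{a, c}, by simp⟩ * v ⟨{b, c}, by simp⟩}
  have hK : IsClosed K := by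
    refine isClosed_le ?_ ?_
    · exact (continuous_apply _).mul (continuous_apply _)
    · exact (continuous_apply _).mul (continuous_apply _)
  have hsubset : closure (Gamma n) ⊆ K :=
    closure_minimal (fun u hu => gamma_submodular a b c hab hac hbc u hu) hK
  have hmid : (1 / 2 : ℝ) • v + (1 / 2 : ℝ) • w ∈ closure (Gamma n) :=
    hconv (subset_closure hv) (subset_closure hw) (by norm_num) (by norm_num) (by norm_num)
  have hmidK := hsubset hmid
  have C : 0 < 2 * Real.pi * Real.exp 1 := by positivity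
  have v1 : v ⟨{c}, by simp⟩ = 2 * Real.pi * Real.exp 1 * 1 := by
    simp only [hvdef, Finset.sum_singleton, s, hac.symm, hbc.symm, if_false]
    norm_num
  have v2 : v ⟨{a, c}, by simp⟩ = 2 * Real.pi * Real.exp 1 * 5 := by
    simp only [hvdef, Finset.sum_pair hac, s, hac.symm, hbc.symm, if_false, if_true]
    congr 1
    rw [Real.sqrt_eq_iff_mul_self_eq (by positivity) (by norm_num)]
    norm_num
  have v3 : v ⟨{b, c}, by simp⟩ = 2 * Real.pi * Real.exp 1 * 5 := by
    simp only [hvdef, Finset.sum_pair hbc, s, hab.symm, hac.symm, hbc.symm, if_false, if_true]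
    congr 1
    rw [Real.sqrt_eq_iff_mul_self_eq (by positivity) (by norm_num)]
    norm_num
  have hsum3 : ∀ f : Fin n → ℝ≥0, ∑ i ∈ ({a, b, c} : Finset (Fin n)), f i = f a + (f b + f c) := by
    intro f
    rw [Finset.sum_insert (by simp [hab, hac]), Finset.sum_pair hbc]
  have v4 : v ⟨{a, b, c}, by simp⟩ = 2 * Real.pi * Real.exp 1 * (265 / 16) := by
    simp only [hvdef, hsum3, s, hab.symm, hac.symm, hbc.symm, if_false, if_true]
    congr 1
    rw [Real.sqrt_eq_iff_mul_self_eq (by positivity) (by norm_num)]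
    norm_num
  have w1 : w ⟨{c}, by simp⟩ = 2 * Real.pi * Real.exp 1 * 4 := by
    simp only [hwdef, Finset.sum_singleton, t, if_true]
    congr 1
    rw [Real.sqrt_eq_iff_mul_self_eq (by positivity) (by norm_num)]
    norm_num
  have w2 : w ⟨{a, c}, by simp⟩ = 2 * Real.pi * Real.exp 1 * 5 := by
    simp only [hwdef, Finset.sum_pair hac, t, hac, if_false, if_true]
    congr 1
    rw [Real.sqrt_eq_iff_mul_self_eq (by positivity) (by norm_num)]
    norm_num
  have w3 : w ⟨{b, c}, by simp⟩ = 2 * Real.pi * Real.exp 1 * 5 := by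
    simp only [hwdef, Finset.sum_pair hbc, t, hbc, if_false, if_true]
    congr 1
    rw [Real.sqrt_eq_iff_mul_self_eq (by positivity) (by norm_num)]
    norm_num
  have w4 : w ⟨{a, b, c}, by simp⟩ = 2 * Real.pi * Real.exp 1 * 6 := by
    simp only [hwdef, hsum3, t, hac, hbc, if_false, if_true]
    congr 1
    rw [Real.sqrt_eq_iff_mul_self_eq (by positivity) (by norm_num)]
    norm_num
  simp only [K, Set.mem_ofPred_eq, Pi.add_apply, Pi.smul_apply, smul_eq_mul, v1, v2, v3, v4,
    w1, w2, w3, w4] at hmidK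
  nlinarith [mul_pos C C]

end Pool.Agent.Results.MP_04c77c_pr.NotConvex
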